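import Mathlib

set_option autoImplicit false

open Set Topology Filter

namespace Pool.Agent.Results.MP_dca756_an.Surjective

/-- Admissible coefficients of a quadratic stochastic operator. -/
def IsQSO {m : ℕ} (P : Fin m → Fin m → Fin m → ℝ) : Prop :=
  (∀ i j k, 0 ≤ P i j k) ∧ (∀ i j k, P i j k = P j i k) ∧ (∀ i j, ∑ k, P i j k = 1)

/-- The quadratic map with coefficients P. -/
def qmap {m : ℕ} (P : Fin m → Fin m → Fin m → ℝ) (x : Fin m → ℝ) : Fin m → ℝ :=
  fun k => ∑ i, ∑ j, P i j k * x i * x j

section Volterra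

variable {m : ℕ} (b : Fin m → Fin m → ℝ)

/-- the linear form L_k -/
noncomputable def L (k : Fin m) : (Fin m → ℝ) →L[ℝ] ℝ :=
  ∑ i, b k i • (ContinuousLinearMap.proj i : (Fin m → ℝ) →L[ℝ] ℝ)

lemma L_apply (k : Fin m) (x : Fin m → ℝ) : L b k x = ∑ i, b k i * x i := by
  simp [L]

/-- the map W_k(x) = x_k L_k(x) -/
noncomputable def W (x : Fin m → ℝ) : Fin m → ℝ := fun k => x k * L b k x

/-- derivative of W -/
noncomputable def dW (x : Fin m → ℝ) : (Fin m → ℝ) →L[ℝ] (Fin m → ℝ) :=
  ContinuousLinearMap.pi (fun k =>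
    x k • L b k + L b k x • (ContinuousLinearMap.proj k : (Fin m → ℝ) →L[ℝ] ℝ))

lemma hasStrict (x : Fin m → ℝ) : HasStrictFDerivAt (W b) (dW b x) x := by
  unfold W dW
  apply hasStrictFDerivAt_pi'.mpr
  intro k
  have h1 : HasStrictFDerivAt (fun y : Fin m → ℝ => y k)
      (ContinuousLinearMap.proj k : (Fin m → ℝ) →L[ℝ] ℝ) x :=
    (ContinuousLinearMap.proj k : (Fin m → ℝ) →L[ℝ] ℝ).hasStrictFDerivAt
  have h2 : HasStrictFDerivAt (fun y : Fin m → ℝ => L b k y) (L b k) x :=
    (L b k).hasStrictFDerivAt
  have h3 := h1.mul h2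
  refine h3.congr_fderiv ?_
  ext v
  simp

lemma continuous_W : Continuous (W b) := by
  unfold W
  fun_prop

variable (hb : ∀ i j, b i j + b j i = 2) (hb0 : ∀ i j, 0 ≤ b i j)

include hb in
lemma quad_form (v : Fin m → ℝ) : ∑ k, v k * L b k v = (∑ k, v k) ^ 2 := by
  have h1 : ∑ k, v k * L b k v = ∑ k, ∑ i, b k i * (v k * v i) := by
    refine Finset.sum_congr rfl (fun k _ => ?_)
    rw [L_apply, Finset.mul_sum]
    refine Finset.sum_congr rfl (fun i _ => by ring)
  have h2 : ∑ k, v k * L b k v = ∑ k, ∑ i, b i k * (v k * v i) := by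
    rw [h1, Finset.sum_comm]
    refine Finset.sum_congr rfl (fun k _ => Finset.sum_congr rfl (fun i _ => by ring))
  have h3 : 2 * ∑ k, v k * L b k v = 2 * (∑ k, v k) ^ 2 := by
    calc 2 * ∑ k, v k * L b k v = ∑ k, v k * L b k v + ∑ k, v k * L b k v := by ring
      _ = ∑ k, ∑ i, b k i * (v k * v i) + ∑ k, ∑ i, b i k * (v k * v i) := by
        rw [← h1, ← h2]
      _ = ∑ k, ∑ i, 2 * (v k * v i) := by
        rw [← Finset.sum_add_distrib]
        refine Finset.sum_congr rfl (fun k _ => ?_)
        rw [← Finset.sum_add_distrib]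
        refine Finset.sum_congr rfl (fun i _ => ?_)
        rw [← hb k i]; ring
      _ = 2 * (∑ k, v k) ^ 2 := by
        rw [sq, Finset.sum_mul_sum, Finset.mul_sum]
        refine Finset.sum_congr rfl (fun k _ => ?_)
        rw [Finset.mul_sum]
  linarith

include hb in
lemma sum_W (x : Fin m → ℝ) : ∑ k, W b x k = (∑ k, x k) ^ 2 := quad_form b hb x

include hb hb0 in
lemma L_pos (x : Fin m → ℝ) (hx : ∀ k, 0 < x k) (k : Fin m) : 0 < L b k x := by
  rw [L_apply]
  have h1 : b k k * x k ≤ ∑ i, b k i * x i :=
    Finset.single_le_sum (f := fun i => b k i * x i)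
      (fun i _ => mul_nonneg (hb0 k i) (hx i).le) (Finset.mem_univ k)
  have h2 : b k k = 1 := by linarith [hb k k]
  rw [h2, one_mul] at h1
  exact lt_of_lt_of_le (hx k) h1

include hb hb0 in
lemma dW_surj (x : Fin m → ℝ) (hx : ∀ k, 0 < x k) : (dW b x).range = ⊤ := by
  have hinj : Function.Injective (dW b x : (Fin m → ℝ) →ₗ[ℝ] (Fin m → ℝ)) := by
    rw [← LinearMap.ker_eq_bot, LinearMap.ker_eq_bot']
    intro v hv
    have hv' : ∀ k, x k * L b k v + L b k x * v k = 0 := by
      intro k
      have := congrFun hv k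
      simpa [dW] using this
    have hk : ∀ k, L b k v = - (L b k x * v k / x k) := by
      intro k
      have h1 := hv' k
      have h2 := (hx k).ne'
      field_simp
      linarith
    have hsum := quad_form b hb v
    have h3 : ∑ k, v k * L b k v = - ∑ k, L b k x * (v k) ^ 2 / x k := by
      rw [← Finset.sum_neg_distrib]
      refine Finset.sum_congr rfl (fun k _ => ?_)
      rw [hk k]; ring
    have h4 : ∀ k ∈ Finset.univ, 0 ≤ L b k x * (v k) ^ 2 / x k := fun k _ =>
      div_nonneg (mul_nonneg (L_pos b hb hb0 x hx k).le (sq_nonneg _)) (hx k).le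
    have h5 : ∑ k, L b k x * (v k) ^ 2 / x k = 0 := by
      have h6 := Finset.sum_nonneg h4
      have h7 : 0 ≤ (∑ k, v k) ^ 2 := sq_nonneg _
      linarith
    have h8 := (Finset.sum_eq_zero_iff_of_nonneg h4).mp h5
    ext k
    have h9 := h8 k (Finset.mem_univ k)
    have hLk := L_pos b hb hb0 x hx k
    have hxk := hx k
    rw [div_eq_zero_iff] at h9
    rcases h9 with h9 | h9
    · rcases mul_eq_zero.mp h9 with h | h
      · exact absurd h hLk.ne'
      · simpa using h
    · exact absurd h9 hxk.ne'
  have hsurj := LinearMap.injective_iff_surjective.mp hinj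
  exact LinearMap.range_eq_top.mpr hsurj

include hb hb0 in
/-- W maps the open positive orthant onto itself -/
lemma W_orthant (y : Fin m → ℝ) (hy : ∀ k, 0 < y k) : ∃ x : Fin m → ℝ, (∀ k, 0 < x k) ∧ W b x = y := by
  set O : Set (Fin m → ℝ) := {x | ∀ k, 0 < x k} with hO
  have hOopen : IsOpen O := by
    rw [hO, ofPred_forall]
    exact isOpen_iInter_of_finite (fun k => isOpen_lt continuous_const (continuous_apply k))
  have hOconv : Convex ℝ O := by
    intro x hx z hz s t hs ht hst k
    have h1 := hx k
    have h2 := hz k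
    show 0 < s * x k + t * z k
    rcases hs.eq_or_lt with h | h
    · subst h
      have : t = 1 := by linarith
      subst this; linarith
    · have := mul_pos h h1
      have := mul_nonneg ht h2.le
      linarith
  have hWO : ∀ x ∈ O, W b x ∈ O := fun x hx k => mul_pos (hx k) (L_pos b hb hb0 x hx k)
  have himg : IsOpen (W b '' O) := by
    rw [isOpen_iff_mem_nhds]
    rintro _ ⟨x, hx, rfl⟩
    rw [← (hasStrict b x).map_nhds_eq_of_surj (dW_surj b hb hb0 x hx)]
    exact image_mem_map (hOopen.mem_nhds hx)
  have hsub : O ⊆ W b '' O := by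
    have h1 : (1 : Fin m → ℝ) ∈ O := fun k => one_pos
    apply hOconv.isPreconnected.subset_of_closure_inter_subset himg ⟨W b 1, hWO 1 h1, 1, h1, rfl⟩
    rintro z ⟨hz1, hz2⟩
    set C : ℝ := (∑ k, z k) + 1 with hC
    have hzsum : 0 ≤ ∑ k, z k := Finset.sum_nonneg (fun k _ => (hz2 k).le)
    have hC1 : 1 ≤ C := by linarith
    have hN : IsOpen {w : Fin m → ℝ | ∑ k, w k < C ^ 2} :=
      isOpen_lt (by fun_prop) continuous_const
    have hzN : z ∈ {w : Fin m → ℝ | ∑ k, w k < C ^ 2} := by
      show ∑ k, z k < C ^ 2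
      nlinarith
    have h2 : z ∈ closure ({w : Fin m → ℝ | ∑ k, w k < C ^ 2} ∩ W b '' O) :=
      hN.inter_closure ⟨hzN, hz1⟩
    have hcomp : IsCompact (W b '' Icc (0 : Fin m → ℝ) (fun _ => C)) :=
      isCompact_Icc.image (continuous_W b)
    have h3 : {w : Fin m → ℝ | ∑ k, w k < C ^ 2} ∩ W b '' O ⊆
        W b '' Icc (0 : Fin m → ℝ) (fun _ => C) := by
      rintro _ ⟨hw, x, hx, rfl⟩
      refine ⟨x, ⟨fun k => (hx k).le, fun k => ?_⟩, rfl⟩
      have hw' : ∑ k, W b x k < C ^ 2 := hw
      rw [sum_W b hb x] at hw'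
      have h4 : ∑ k, x k < C := lt_of_pow_lt_pow_left₀ 2 (by linarith) hw'
      have h5 : x k ≤ ∑ k, x k :=
        Finset.single_le_sum (f := fun i => x i) (fun i _ => (hx i).le) (Finset.mem_univ k)
      show x k ≤ C
      linarith
    obtain ⟨x, hx, hxz⟩ := hcomp.isClosed.closure_subset_iff.mpr h3 h2
    refine ⟨x, fun k => ?_, hxz⟩
    have h6 : 0 ≤ x k := hx.1 k
    rcases h6.eq_or_lt with h | h
    · exfalso
      have h7 : W b x k = 0 := by
        show x k * L b k x = 0
        rw [← h, zero_mul]
      have h8 := hz2 k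
      rw [← hxz, h7] at h8
      exact lt_irrefl _ h8
    · exact h
  obtain ⟨x, hx, hxy⟩ := hsub (show y ∈ O from hy)
  exact ⟨x, hx, hxy⟩

include hb hb0 in
/-- W maps the simplex onto the simplex -/
lemma W_simplex (y : Fin m → ℝ) (hy : y ∈ stdSimplex ℝ (Fin m)) :
    ∃ x ∈ stdSimplex ℝ (Fin m), W b x = y := by
  have hcomp : IsCompact (W b '' stdSimplex ℝ (Fin m)) :=
    (isCompact_stdSimplex (𝕜 := ℝ) (Fin m)).image (continuous_W b)
  have hmpos : 0 < m := by
    rcases Nat.eq_zero_or_pos m with h | h
    · subst h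
      have := hy.2
      simp at this
    · exact h
  have hm0 : (0 : ℝ) < m := by exact_mod_cast hmpos
  -- interior points
  have hint : ∀ s : ℝ, 0 < s → s ≤ 1 →
      (fun k => (1 - s) * y k + s * (1 / m)) ∈ W b '' stdSimplex ℝ (Fin m) := by
    intro s hs hs1
    obtain ⟨x, hx, hxy⟩ := W_orthant b hb hb0 (fun k => (1 - s) * y k + s * (1 / m)) (fun k => by
      have h1 := mul_nonneg (by linarith : (0 : ℝ) ≤ 1 - s) (hy.1 k)
      have h2 : 0 < s * (1 / (m : ℝ)) := by positivity
      linarith)
    refine ⟨x, ⟨fun k => (hx k).le, ?_⟩, hxy⟩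
    have h1 := sum_W b hb x
    rw [hxy] at h1
    have h2 : ∑ k, ((1 - s) * y k + s * (1 / (m : ℝ))) = 1 := by
      rw [Finset.sum_add_distrib, ← Finset.mul_sum, hy.2]
      simp
      field_simp
      ring
    rw [h2] at h1
    have h3 : 0 ≤ ∑ k, x k := Finset.sum_nonneg (fun k _ => (hx k).le)
    nlinarith
  have hlim : Tendsto (fun s : ℝ => (fun k => (1 - s) * y k + s * (1 / (m : ℝ)))) (𝓝[>] 0)
      (𝓝 y) := by
    have hc : Continuous (fun s : ℝ => (fun k => (1 - s) * y k + s * (1 / (m : ℝ)))) := by
      fun_prop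
    have := (hc.tendsto 0).mono_left (nhdsWithin_le_nhds (s := Ioi 0))
    simpa using this
  have hev : ∀ᶠ s in 𝓝[>] (0 : ℝ),
      (fun k => (1 - s) * y k + s * (1 / (m : ℝ))) ∈ W b '' stdSimplex ℝ (Fin m) := by
    have : Ioc (0 : ℝ) 1 ∈ 𝓝[>] (0 : ℝ) := Ioc_mem_nhdsGT one_pos
    filter_upwards [this] with s hs
    exact hint s hs.1 hs.2
  exact hcomp.isClosed.mem_of_tendsto hlim hev

end Volterra

/-- **Result.** A quadratic stochastic operator on the simplex is surjective iff there is a
permutation π such that P_{ij,k} = 0 whenever k is neither π(i) nor π(j). -/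
theorem result {m : ℕ} (P : Fin m → Fin m → Fin m → ℝ) (hP : IsQSO P) :
    qmap P '' stdSimplex ℝ (Fin m) = stdSimplex ℝ (Fin m) ↔
      ∃ π : Equiv.Perm (Fin m), ∀ i j k, k ≠ π i → k ≠ π j → P i j k = 0 := by
  classical
  obtain ⟨hP0, hPs, hP1⟩ := hP
  constructor
  · intro hsurj
    -- zero lemma
    have hzero : ∀ x ∈ stdSimplex ℝ (Fin m), ∀ r, qmap P x r = 0 →
        ∀ a c, 0 < x a → 0 < x c → P a c r = 0 := by
      intro x hx r hr a c ha hc
      have h1 : ∀ i ∈ Finset.univ, 0 ≤ ∑ j, P i j r * x i * x j := fun i _ =>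
        Finset.sum_nonneg (fun j _ => mul_nonneg (mul_nonneg (hP0 i j r) (hx.1 i)) (hx.1 j))
      have h2 := (Finset.sum_eq_zero_iff_of_nonneg h1).mp hr a (Finset.mem_univ a)
      have h3 : ∀ j ∈ Finset.univ, 0 ≤ P a j r * x a * x j := fun j _ =>
        mul_nonneg (mul_nonneg (hP0 a j r) (hx.1 a)) (hx.1 j)
      have h4 := (Finset.sum_eq_zero_iff_of_nonneg h3).mp h2 c (Finset.mem_univ c)
      rcases mul_eq_zero.mp h4 with h | h
      · rcases mul_eq_zero.mp h with h | h
        · exact h
        · exact absurd h ha.ne'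
      · exact absurd h hc.ne'
    have hpos : ∀ x ∈ stdSimplex ℝ (Fin m), ∃ a, 0 < x a := by
      intro x hx
      by_contra hcon
      push Not at hcon
      have : ∑ i, x i ≤ 0 := Finset.sum_nonpos (fun i _ => hcon i)
      rw [hx.2] at this
      linarith
    -- vertices
    have hvert : ∀ k, ∃ i, P i i k = 1 ∧ ∀ r, r ≠ k → P i i r = 0 := by
      intro k
      have hk : (Pi.single k 1 : Fin m → ℝ) ∈ stdSimplex ℝ (Fin m) := single_mem_stdSimplex ℝ k
      rw [← hsurj] at hk
      obtain ⟨x, hx, hxk⟩ := hk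
      obtain ⟨a, ha⟩ := hpos x hx
      have h0 : ∀ r, r ≠ k → P a a r = 0 := by
        intro r hr
        apply hzero x hx r _ a a ha ha
        rw [hxk]
        simp [hr]
      refine ⟨a, ?_, h0⟩
      have h1 := hP1 a a
      rw [Finset.sum_eq_single k (fun r _ hr => h0 r hr) (by simp)] at h1
      exact h1
    choose σ hσ1 hσ2 using hvert
    have hσinj : Function.Injective σ := by
      intro k l hkl
      by_contra hne
      have h1 := hσ1 k
      have h2 := hσ2 l k hne
      rw [hkl] at h1
      rw [h2] at h1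
      exact zero_ne_one h1
    let e : Equiv.Perm (Fin m) := Equiv.ofBijective σ (Finite.injective_iff_bijective.mp hσinj)
    have heσ : ∀ k, e k = σ k := fun k => rfl
    refine ⟨e.symm, ?_⟩
    have hdiag : ∀ i r, r ≠ e.symm i → P i i r = 0 := by
      intro i r hr
      have h1 := hσ2 (e.symm i) r hr
      rwa [← heσ, Equiv.apply_symm_apply] at h1
    have hdiag1 : ∀ i, P i i (e.symm i) = 1 := by
      intro i
      have h1 := hσ1 (e.symm i)
      rwa [← heσ, Equiv.apply_symm_apply] at h1
    intro i j r hri hrj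
    by_cases hij : i = j
    · subst hij; exact hdiag i r hri
    have hne : e.symm i ≠ e.symm j := fun h => hij (e.symm.injective h)
    set y : Fin m → ℝ := (1 / 2 : ℝ) • (Pi.single (e.symm i) 1 : Fin m → ℝ) +
      (1 / 2 : ℝ) • (Pi.single (e.symm j) 1 : Fin m → ℝ) with hy
    have hymem : y ∈ stdSimplex ℝ (Fin m) :=
      convex_stdSimplex ℝ (Fin m) (single_mem_stdSimplex ℝ _) (single_mem_stdSimplex ℝ _)
        (by norm_num) (by norm_num) (by norm_num)
    rw [← hsurj] at hymem
    obtain ⟨x, hx, hxy⟩ := hymem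
    have hy0 : ∀ s, s ≠ e.symm i → s ≠ e.symm j → qmap P x s = 0 := by
      intro s hs1 hs2
      rw [hxy, hy]
      simp [hs1, hs2]
    have hsupp : ∀ a, 0 < x a → a = i ∨ a = j := by
      intro a ha
      by_contra hcon
      push Not at hcon
      have h1 : e.symm a ≠ e.symm i := fun h => hcon.1 (e.symm.injective h)
      have h2 : e.symm a ≠ e.symm j := fun h => hcon.2 (e.symm.injective h)
      have h3 := hzero x hx (e.symm a) (hy0 _ h1 h2) a a ha ha
      rw [hdiag1] at h3
      exact one_ne_zero h3
    have hxzero : ∀ a, a ≠ i → a ≠ j → x a = 0 := by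
      intro a h1 h2
      rcases (hx.1 a).eq_or_lt with h | h
      · exact h.symm
      · rcases hsupp a h with h | h
        · exact absurd h h1
        · exact absurd h h2
    have hyi : y (e.symm i) = 1 / 2 := by
      rw [hy]; simp [hne]
    have hyj : y (e.symm j) = 1 / 2 := by
      rw [hy]; simp [hne.symm]
    -- both coordinates are positive
    have hsingle : ∀ c, (∀ a, a ≠ c → x a = 0) → ∀ s, s ≠ e.symm c → qmap P x s = 0 := by
      intro c hc s hs
      show ∑ a, ∑ a', P a a' s * x a * x a' = 0
      refine Finset.sum_eq_zero (fun a _ => Finset.sum_eq_zero (fun a' _ => ?_))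
      by_cases h1 : a = c
      · by_cases h2 : a' = c
        · rw [h1, h2, hdiag c s hs]; ring
        · rw [hc a' h2]; ring
      · rw [hc a h1]; ring
    have hxi : 0 < x i := by
      rcases (hx.1 i).eq_or_lt with h | h
      · exfalso
        have h1 : ∀ a, a ≠ j → x a = 0 := by
          intro a ha
          by_cases h2 : a = i
          · rw [h2, ← h]
          · exact hxzero a h2 ha
        have h3 := hsingle j h1 (e.symm i) hne
        rw [hxy, hyi] at h3
        norm_num at h3
      · exact h
    have hxj : 0 < x j := by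
      rcases (hx.1 j).eq_or_lt with h | h
      · exfalso
        have h1 : ∀ a, a ≠ i → x a = 0 := by
          intro a ha
          by_cases h2 : a = j
          · rw [h2, ← h]
          · exact hxzero a ha h2
        have h3 := hsingle i h1 (e.symm j) hne.symm
        rw [hxy, hyj] at h3
        norm_num at h3
      · exact h
    exact hzero x hx r (hy0 r hri hrj) i j hxi hxj
  · rintro ⟨π, hπ⟩
    -- V maps the simplex into itself
    have hmaps : ∀ x ∈ stdSimplex ℝ (Fin m), qmap P x ∈ stdSimplex ℝ (Fin m) := by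
      intro x hx
      refine ⟨fun k => Finset.sum_nonneg (fun i _ => Finset.sum_nonneg (fun j _ =>
        mul_nonneg (mul_nonneg (hP0 i j k) (hx.1 i)) (hx.1 j))), ?_⟩
      show ∑ k, ∑ i, ∑ j, P i j k * x i * x j = 1
      rw [Finset.sum_comm]
      have h1 : ∀ i, ∑ k, ∑ j, P i j k * x i * x j = x i := by
        intro i
        rw [Finset.sum_comm]
        have h2 : ∀ j, ∑ k, P i j k * x i * x j = x i * x j := by
          intro j
          rw [← Finset.sum_mul, ← Finset.sum_mul, hP1, one_mul]
        simp_rw [h2]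
        rw [← Finset.mul_sum, hx.2, mul_one]
      simp_rw [h1]
      exact hx.2
    apply Subset.antisymm
    · rintro _ ⟨x, hx, rfl⟩
      exact hmaps x hx
    · intro y hy
      let b : Fin m → Fin m → ℝ := fun k i => if i = k then 1 else 2 * P i k (π k)
      have hb : ∀ i j, b i j + b j i = 2 := by
        intro i j
        by_cases hij : j = i
        · subst hij; simp [b]; norm_num
        · have hji : i ≠ j := fun h => hij h.symm
          have h1 : P i j (π i) + P i j (π j) = 1 := by
            have h2 := hP1 i j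
            have hne : π i ≠ π j := fun h => hji (π.injective h)
            rw [← h2, ← Finset.sum_pair hne]
            refine Finset.sum_subset (Finset.subset_univ _) (fun k _ hk => ?_)
            simp only [Finset.mem_insert, Finset.mem_singleton, not_or] at hk
            exact hπ i j k hk.1 hk.2
          simp only [b, hij, hji, if_false]
          rw [hPs j i (π i)]
          linarith
      have hb0 : ∀ i j, 0 ≤ b i j := by
        intro i j
        simp only [b]
        split_ifs
        · norm_num
        · exact mul_nonneg (by norm_num) (hP0 _ _ _)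
      have hy' : (fun k => y (π k)) ∈ stdSimplex ℝ (Fin m) :=
        ⟨fun k => hy.1 (π k), by rw [← hy.2]; exact Equiv.sum_comp π y⟩
      obtain ⟨x, hx, hxy⟩ := W_simplex b hb hb0 _ hy'
      refine ⟨x, hx, ?_⟩
      -- compute V
      have hV : ∀ k, qmap P x (π k) = W b x k := by
        intro k
        show ∑ i, ∑ j, P i j (π k) * x i * x j = x k * L b k x
        have hzero : ∀ i, i ≠ k → ∑ j, P i j (π k) * x i * x j = P i k (π k) * x i * x k := by
          intro i hi
          rw [Finset.sum_eq_single k]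
          · intro j _ hj
            rw [hπ i j (π k) (fun h => hi (π.injective h).symm) (fun h => hj (π.injective h).symm)]
            ring
          · simp
        have hkk : P k k (π k) = 1 := by
          rw [← hP1 k k]
          rw [Finset.sum_eq_single (π k)]
          · intro r _ hr
            exact hπ k k r hr hr
          · simp
        have h1 : ∑ i, ∑ j, P i j (π k) * x i * x j =
            ∑ j, P k j (π k) * x k * x j + ∑ i ∈ Finset.univ.erase k, P i k (π k) * x i * x k := by
          rw [← Finset.add_sum_erase _ _ (Finset.mem_univ k)]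
          congr 1
          refine Finset.sum_congr rfl (fun i hi => ?_)
          exact hzero i (Finset.ne_of_mem_erase hi)
        rw [h1, L_apply]
        rw [← Finset.add_sum_erase _ (fun j => P k j (π k) * x k * x j) (Finset.mem_univ k)]
        rw [← Finset.add_sum_erase _ (fun i => b k i * x i) (Finset.mem_univ k)]
        rw [hkk]
        simp only [b, if_true]
        rw [mul_add, Finset.mul_sum, add_assoc, ← Finset.sum_add_distrib]
        congr 1
        · ring
        · refine Finset.sum_congr rfl (fun i hi => ?_)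
          have hik : i ≠ k := Finset.ne_of_mem_erase hi
          simp only [hik, if_false]
          rw [hPs k i (π k)]
          ring
      ext k
      obtain ⟨l, rfl⟩ := π.surjective k
      rw [hV l, hxy]

end Pool.Agent.Results.MP_dca756_an.Surjective
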